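import Pool.Agent.helper360_rd.Proof

/-! Adjacency determinant and the flower decomposition of `R`-disjoint graphs. -/

namespace Pool.Agent.Results.MP_079569_co.FlowerDet
open Finset Pool.Agent.H360_RD
universe u
variable {V : Type u} [Fintype V] [DecidableEq V] {G : SimpleGraph V}

open Classical in
/-- The determinant of an `R`-disjoint graph is the product of the determinants of the parts of its flower
decomposition. -/
theorem result (hR : RDisjoint G) :
    (G.adjMatrix ℝ).det = ((G.induce (bip G)).adjMatrix ℝ).det *
      ∏ C ∈ (univ : Finset (Finset (Sym2 V))).filter (fun C => IsOddCycle G C),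
        ((G.induce (reach G C)).adjMatrix ℝ).det := by
  set ι := {C : Finset (Sym2 V) // IsOddCycle G C} with hι
  set P : V → Option ι := fun v => if h : ∃ C, IsOddCycle G C ∧ v ∈ reach G C then some ⟨h.choose, h.choose_spec.1⟩
    else none with hP
  have hdisj : ∀ C C' v, IsOddCycle G C → IsOddCycle G C' → v ∈ reach G C → v ∈ reach G C' → C = C' := by
    intro C C' v hC hC' hv hv'
    by_contra hne
    exact Set.disjoint_left.1 (hR.2.2 C C' hC hC' hne) hv hv'
  have hP1 : ∀ v (C : ι), P v = some C ↔ v ∈ reach G C.1 := by
    intro v C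
    by_cases hex : ∃ C, IsOddCycle G C ∧ v ∈ reach G C
    · simp only [hP, dif_pos hex, Option.some.injEq]
      constructor
      · intro h
        rw [← h]
        exact hex.choose_spec.2
      · intro h
        exact Subtype.ext (hdisj _ _ v hex.choose_spec.1 C.2 hex.choose_spec.2 h)
    · simp only [hP, dif_neg hex]
      constructor
      · intro h
        exact absurd h (by simp)
      · intro h
        exact absurd ⟨C.1, C.2, h⟩ hex
  have hP2 : ∀ v, P v = none ↔ v ∈ bip G := by
    intro v
    constructor
    · intro h C hC hv
      rw [(hP1 v ⟨C, hC⟩).2 hv] at h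
      exact absurd h (by simp)
    · intro h
      rcases hPv : P v with _ | C
      · rfl
      · exact absurd ((hP1 v C).1 hPv) (h C.1 C.2)
  set en : Option ι ≃ Fin (Fintype.card (Option ι)) := Fintype.equivFin (Option ι) with hen
  set Q : V → Fin (Fintype.card (Option ι)) := fun v => en (P v) with hQ
  have hQ1 : ∀ v o, Q v = en o ↔ P v = o := fun v o => en.injective.eq_iff
  have hdet : (G.adjMatrix ℝ).det =
      (Matrix.of fun i j => if Q i = Q j then G.adjMatrix ℝ i j else 0 : Matrix V V ℝ).det := by
    rw [Matrix.det_apply, Matrix.det_apply]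
    refine Finset.sum_congr rfl fun σ _ => ?_
    congr 1
    by_cases hσ : ∀ v, G.Adj v (σ v)
    · refine Finset.prod_congr rfl fun v _ => ?_
      have : P (σ v) = P v := by
        rcases hPv : P v with _ | C
        · rw [hP2] at hPv ⊢
          intro C hC h
          exact hPv C hC ((perm_inv hR σ hσ hC v).1 h)
        · rw [hP1] at hPv ⊢
          exact (perm_inv hR σ hσ C.2 v).2 hPv
      have h2 : Q (σ v) = Q v := by simp only [hQ, this]
      rw [Matrix.of_apply, if_pos h2]
    · push Not at hσ
      obtain ⟨v, hv⟩ := hσ
      have hv' : ¬ G.Adj (σ v) v := fun h => hv h.symm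
      rw [Finset.prod_eq_zero (mem_univ v), Finset.prod_eq_zero (mem_univ v)]
      · simp [hv']
      · simp [hv']
  have hbt : (Matrix.of fun i j => if Q i = Q j then G.adjMatrix ℝ i j else 0 : Matrix V V ℝ).BlockTriangular Q := by
    intro i j hij
    rw [Matrix.of_apply, if_neg hij.ne']
  rw [hdet, hbt.det_fintype, ← Equiv.prod_comp en, Fintype.prod_option]
  congr 1
  · exact block_det Q (en none) (bip G) (fun v => (hQ1 v none).trans (hP2 v))
  · rw [Finset.prod_subtype (p := fun C => IsOddCycle G C) _ (fun C => by simp)]
    exact Finset.prod_congr rfl fun C _ => block_det Q (en (some C)) (reach G C.1)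
      (fun v => (hQ1 v (some C)).trans (hP1 v C))

end Pool.Agent.Results.MP_079569_co.FlowerDet
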